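import Pool.Agent.N105.LT.Defs

/-! The kernel inequality (task LT/KI of project LG of helper105). -/

set_option autoImplicit false

open MeasureTheory Set Filter Topology Real
open scoped Matrix

namespace Pool.Agent.N919.LG
open LTd Pool.Agent.N105.LT

theorem int4 {f1 f2 f3 f4 : ℝ → ℝ} (i1 : Integrable f1) (i2 : Integrable f2)
    (i3 : Integrable f3) (i4 : Integrable f4) :
    ∫ x, (f1 x - f2 x - f3 x + f4 x) = (∫ x, f1 x) - (∫ x, f2 x) - (∫ x, f3 x) + ∫ x, f4 x := by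
  have j2 : Integrable (fun x => f1 x - f2 x) := i1.sub i2
  have j3 : Integrable (fun x => f1 x - f2 x - f3 x) := j2.sub i3
  rw [integral_add j3 i4, integral_sub j2 i3, integral_sub i1 i2]

theorem ki
    (h1 : ∀ a b : ℝ, Integrable (fun x : ℝ => (cosh (x - a))⁻¹ * (cosh (x - b))⁻¹) ∧
      ∫ x : ℝ, (cosh (x - a))⁻¹ * (cosh (x - b))⁻¹ = 2 * kk (a - b))
    (h3 : Integrable (fun x : ℝ => kk x ^ 2) ∧ ∫ x : ℝ, kk x ^ 2 = π ^ 2 / 3)
    (h2 : ∀ a : ℝ, Integrable (fun x : ℝ => (cosh (x - a))⁻¹ * kk x) ∧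
      ∫ x : ℝ, (cosh (x - a))⁻¹ * kk x = (a ^ 2 + π ^ 2 / 4) / cosh a)
    {n : ℕ} (X : Mat n) (hX : PSD X) (a : Fin n → ℝ) :
    4 * ∑ i, a i ^ 2 * (X * X * X) i i + π ^ 2 / 3 * (X * X * X).trace ≤
      4 * ∑ i, ∑ j, kk (a i - a j) * (cosh (a i) * cosh (a j)) * (X i j * (X * X) i j) := by
  have hsym := hX.1
  have hY : ∀ i j, (X * X) i j = ∑ l, X i l * X j l := by
    intro i j
    rw [Matrix.mul_apply]
    exact Finset.sum_congr rfl fun l _ => by rw [hsym l j]
  have hYs : ∀ i j, (X * X) i j = (X * X) j i := by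
    intro i j
    rw [hY, hY]
    exact Finset.sum_congr rfl fun l _ => mul_comm _ _
  have hpt : ∀ d : Fin n → ℝ, 0 ≤ ∑ i, ∑ j, d i * d j * (X i j * (X * X) i j) := by
    intro d
    have e : ∑ i, ∑ j, d i * d j * (X i j * (X * X) i j) =
        ∑ l, ∑ i, ∑ j, (d i * X i l) * (d j * X j l) * X i j := by
      calc ∑ i, ∑ j, d i * d j * (X i j * (X * X) i j)
          = ∑ i, ∑ j, ∑ l, (d i * X i l) * (d j * X j l) * X i j := by
            refine Finset.sum_congr rfl fun i _ => Finset.sum_congr rfl fun j _ => ?_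
            rw [hY, Finset.mul_sum, Finset.mul_sum]
            exact Finset.sum_congr rfl fun l _ => by ring
        _ = ∑ i, ∑ l, ∑ j, (d i * X i l) * (d j * X j l) * X i j :=
            Finset.sum_congr rfl fun i _ => Finset.sum_comm
        _ = ∑ l, ∑ i, ∑ j, (d i * X i l) * (d j * X j l) * X i j := Finset.sum_comm
    rw [e]
    exact Finset.sum_nonneg fun l _ => hX.2 fun i => d i * X i l
  have hint : ∀ i j, Integrable (fun x : ℝ =>
      (cosh (a i) * (cosh (x - a i))⁻¹ - kk x) * (cosh (a j) * (cosh (x - a j))⁻¹ - kk x)) ∧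
      ∫ x : ℝ, (cosh (a i) * (cosh (x - a i))⁻¹ - kk x) *
        (cosh (a j) * (cosh (x - a j))⁻¹ - kk x) =
      2 * (kk (a i - a j) * (cosh (a i) * cosh (a j))) - a i ^ 2 - a j ^ 2 - π ^ 2 / 6 := by
    intro i j
    have hci : cosh (a i) ≠ 0 := (cosh_pos _).ne'
    have hcj : cosh (a j) ≠ 0 := (cosh_pos _).ne'
    have e : (fun x : ℝ =>
        (cosh (a i) * (cosh (x - a i))⁻¹ - kk x) * (cosh (a j) * (cosh (x - a j))⁻¹ - kk x)) =
        fun x : ℝ => (cosh (a i) * cosh (a j)) * ((cosh (x - a i))⁻¹ * (cosh (x - a j))⁻¹) -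
          cosh (a i) * ((cosh (x - a i))⁻¹ * kk x) - cosh (a j) * ((cosh (x - a j))⁻¹ * kk x) +
          kk x ^ 2 := by
      funext x
      ring
    have i1 := (h1 (a i) (a j)).1.const_mul (cosh (a i) * cosh (a j))
    have i2 := (h2 (a i)).1.const_mul (cosh (a i))
    have i3 := (h2 (a j)).1.const_mul (cosh (a j))
    rw [e]
    refine ⟨((i1.sub i2).sub i3).add h3.1, ?_⟩
    have s1 : ∫ x : ℝ, (cosh (a i) * cosh (a j)) * ((cosh (x - a i))⁻¹ * (cosh (x - a j))⁻¹) =
        cosh (a i) * cosh (a j) * (2 * kk (a i - a j)) := by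
      rw [integral_const_mul, (h1 (a i) (a j)).2]
    have s2 : ∫ x : ℝ, cosh (a i) * ((cosh (x - a i))⁻¹ * kk x) = a i ^ 2 + π ^ 2 / 4 := by
      rw [integral_const_mul, (h2 (a i)).2, mul_div_cancel₀ _ hci]
    have s3 : ∫ x : ℝ, cosh (a j) * ((cosh (x - a j))⁻¹ * kk x) = a j ^ 2 + π ^ 2 / 4 := by
      rw [integral_const_mul, (h2 (a j)).2, mul_div_cancel₀ _ hcj]
    rw [int4 i1 i2 i3 h3.1, s1, s2, s3, h3.2]
    ring
  have hsum : 0 ≤ ∑ i, ∑ j,
      (2 * (kk (a i - a j) * (cosh (a i) * cosh (a j))) - a i ^ 2 - a j ^ 2 - π ^ 2 / 6) *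
        (X i j * (X * X) i j) := by
    have e : ∑ i, ∑ j,
        (2 * (kk (a i - a j) * (cosh (a i) * cosh (a j))) - a i ^ 2 - a j ^ 2 - π ^ 2 / 6) *
          (X i j * (X * X) i j) = ∫ x : ℝ, ∑ i, ∑ j,
        (cosh (a i) * (cosh (x - a i))⁻¹ - kk x) * (cosh (a j) * (cosh (x - a j))⁻¹ - kk x) *
          (X i j * (X * X) i j) := by
      rw [integral_finsetSum]
      · refine Finset.sum_congr rfl fun i _ => ?_
        rw [integral_finsetSum]
        · refine Finset.sum_congr rfl fun j _ => ?_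
          rw [integral_mul_const, (hint i j).2]
        · exact fun j _ => (hint i j).1.mul_const _
      · exact fun i _ => integrable_finsetSum _ fun j _ => (hint i j).1.mul_const _
    rw [e]
    exact integral_nonneg fun x => hpt fun i => cosh (a i) * (cosh (x - a i))⁻¹ - kk x
  have t2 : ∀ i, ∑ j, X i j * (X * X) i j = (X * X * X) i i := by
    intro i
    rw [Matrix.mul_apply (M := X * X)]
    exact Finset.sum_congr rfl fun j _ => by rw [hsym j i]; ring
  have t3 : ∑ i, ∑ j, a i ^ 2 * (X i j * (X * X) i j) = ∑ i, a i ^ 2 * (X * X * X) i i := by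
    refine Finset.sum_congr rfl fun i _ => ?_
    rw [← t2 i, Finset.mul_sum]
  have t4 : ∑ i, ∑ j, a j ^ 2 * (X i j * (X * X) i j) = ∑ i, a i ^ 2 * (X * X * X) i i := by
    rw [Finset.sum_comm]
    refine Finset.sum_congr rfl fun i _ => ?_
    rw [← t2 i, Finset.mul_sum]
    exact Finset.sum_congr rfl fun j _ => by rw [hsym j i, hYs j i]
  have t5 : ∑ i, ∑ j, X i j * (X * X) i j = (X * X * X).trace := by
    rw [Matrix.trace]
    exact Finset.sum_congr rfl fun i _ => t2 i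
  have t6 : ∑ i, ∑ j,
      (2 * (kk (a i - a j) * (cosh (a i) * cosh (a j))) - a i ^ 2 - a j ^ 2 - π ^ 2 / 6) *
        (X i j * (X * X) i j) =
      2 * (∑ i, ∑ j, kk (a i - a j) * (cosh (a i) * cosh (a j)) * (X i j * (X * X) i j)) -
      (∑ i, a i ^ 2 * (X * X * X) i i) - (∑ i, a i ^ 2 * (X * X * X) i i) -
      π ^ 2 / 6 * (X * X * X).trace := by
    rw [← t5]
    nth_rewrite 1 [← t3]
    rw [← t4]
    simp only [Finset.mul_sum, ← Finset.sum_sub_distrib]
    exact Finset.sum_congr rfl fun i _ => Finset.sum_congr rfl fun j _ => by ring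
  rw [t6] at hsum
  linarith

end Pool.Agent.N919.LG
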